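import Mathlib
import Pool.Agent.Y298.CA.Stm

/-!
# Change of variables for truncated iterates, and one preimage (CA-ME)
-/

set_option autoImplicit false

open Set Filter Metric MeasureTheory

namespace Pool.Agent.Y932.CA

open Pool.Agent.TH279.MD Pool.Agent.Y298.SH Pool.Agent.Y298.SH.CD Pool.Agent.Y298.CA

theorem measurable_VV (d : ℕ) (δ : ℝ) (c : ℂ) (n : ℕ) : MeasurableSet (VV d δ c n) := by
  have h : VV d δ c n = ⋂ j : ℕ, ⋂ _ : j < n, {y : ℂ | 2 * δ ≤ ‖(f d c)^[j] y‖} := by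
    ext y
    simp [VV]
  rw [h]
  refine MeasurableSet.iInter fun j => MeasurableSet.iInter fun _ => ?_
  exact (isClosed_le continuous_const (continuous_fn d c j).norm).measurableSet

theorem f_pre {d : ℕ} (hd : 2 ≤ d) (c w ζ : ℂ) (hζ : ζ ∈ RU d) : f d c (ζ * rt d (w - c)) = w := by
  unfold f
  rw [mul_pow, (mem_RU hd).mp hζ, one_mul, rt_pow hd]
  ring

theorem LE_mul {d : ℕ} (hd : 2 ≤ d) (c : ℂ) (F g : ℂ → ENNReal) (w : ℂ) :
    LE d c (fun y => F (f d c y) * g y) w = F w * LE d c g w := by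
  unfold Pool.Agent.Y298.SH.LE
  have h : ∑ ζ ∈ RU d, F (f d c (ζ * rt d (w - c))) * g (ζ * rt d (w - c)) =
      F w * ∑ ζ ∈ RU d, g (ζ * rt d (w - c)) := by
    rw [Finset.mul_sum]
    refine Finset.sum_congr rfl fun ζ hζ => ?_
    rw [f_pre hd c w ζ hζ]
  rw [h, mul_assoc]

theorem continuous_RO {d : ℕ} (hd : 2 ≤ d) {δ : ℝ} (hδ : 0 < δ) (c : ℂ) {φ : ℂ → ℝ}
    (hφ : Continuous φ) : Continuous (RO d δ c φ) := by
  have h1 : Continuous (fun w : ℂ => ((c, w) : ℂ × ℂ)) := by fun_prop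
  have h2 := (continuous_TR2 hd (F := fun p : ℂ × ℂ => wt d δ p.2 * φ p.2)
      (((continuous_wt hd hδ).comp continuous_snd).mul (hφ.comp continuous_snd))).comp h1
  exact h2

theorem VV_succ {d : ℕ} {δ : ℝ} {c : ℂ} {n : ℕ} {y : ℂ} (hy : y ∈ VV d δ c (n + 1)) :
    2 * δ ≤ ‖y‖ ∧ f d c y ∈ VV d δ c n := by
  refine ⟨hy 0 (Nat.succ_pos n), fun j hj => ?_⟩
  have := hy (j + 1) (by omega)
  rwa [Function.iterate_succ_apply] at this

theorem me_aux {d : ℕ} (hd : 2 ≤ d) {δ : ℝ} (hδ : 0 < δ) (c : ℂ) {β : ℂ → ENNReal}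
    (hβ : Measurable β) (n : ℕ) : ∀ {φ : ℂ → ℝ}, Continuous φ → (∀ y, 0 ≤ φ y) →
    ∫⁻ y in VV d δ c n, β ((f d c)^[n] y) * ENNReal.ofReal (φ y) ≤
      ∫⁻ z, β z * ENNReal.ofReal ((RO d δ c)^[n] φ z) := by
  induction n with
  | zero =>
    intro φ _ _
    have h : VV d δ c 0 = univ := by
      ext y
      simp [VV]
    rw [h, Measure.restrict_univ]
    exact le_rfl
  | succ n ih =>
    intro φ hφ h0
    have hm2 : Measurable fun y => ENNReal.ofReal (chi δ y * φ y) :=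
      ENNReal.measurable_ofReal.comp ((continuous_chi δ).mul hφ).measurable
    have hm3 : Measurable fun y => β ((f d c)^[n] (f d c y)) * ENNReal.ofReal (chi δ y * φ y) := by
      refine Measurable.mul ?_ hm2
      have h1 : Continuous fun y => (f d c)^[n] (f d c y) := by
        have := continuous_fn d c (n + 1)
        exact this
      exact hβ.comp h1.measurable
    calc ∫⁻ y in VV d δ c (n + 1), β ((f d c)^[n + 1] y) * ENNReal.ofReal (φ y)
        ≤ ∫⁻ y in VV d δ c (n + 1), β ((f d c)^[n] (f d c y)) * ENNReal.ofReal (chi δ y * φ y) := by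
          apply setLIntegral_mono' (measurable_VV d δ c (n + 1))
          intro y hy
          rw [chi_one hδ (VV_succ hy).1, one_mul, Function.iterate_succ_apply]
      _ ≤ ∫⁻ y in (f d c) ⁻¹' VV d δ c n,
            β ((f d c)^[n] (f d c y)) * ENNReal.ofReal (chi δ y * φ y) :=
          lintegral_mono_set fun y hy => (VV_succ hy).2
      _ = ∫⁻ w in VV d δ c n, β ((f d c)^[n] w) * ENNReal.ofReal (RO d δ c φ w) := by
          rw [dualE hd c (measurable_VV d δ c n) hm3]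
          apply lintegral_congr
          intro w
          rw [LE_mul hd c (fun w => β ((f d c)^[n] w)) (fun y => ENNReal.ofReal (chi δ y * φ y)) w,
            LE_ofReal hd hδ h0 w]
      _ ≤ ∫⁻ z, β z * ENNReal.ofReal ((RO d δ c)^[n] (RO d δ c φ) z) :=
          ih (continuous_RO hd hδ c hφ) (fun y => RO_nonneg hδ h0 y)
      _ = _ := rfl

theorem me : S_ME := by
  intro d δ c n β hd hδ hβ
  have h := me_aux hd hδ c hβ n (φ := fun _ => 1) continuous_const (fun _ => zero_le_one)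
  simp only [ENNReal.ofReal_one, mul_one] at h
  exact h

theorem RO_ge {d : ℕ} (hd : 2 ≤ d) {δ : ℝ} (hδ : 0 < δ) (c : ℂ) {φ : ℂ → ℝ} (h0 : ∀ y, 0 ≤ φ y)
    {y : ℂ} (hy : 2 * δ ≤ ‖y‖) :
    φ y ≤ RO d δ c φ (f d c y) * ‖deriv (f d c) y‖ ^ 2 := by
  have hy0 : 0 < ‖y‖ := by linarith
  have hyne : y ≠ 0 := norm_pos_iff.mp hy0
  have hdR : (2 : ℝ) ≤ d := by exact_mod_cast hd
  have h1 : f d c y - c = y ^ d := by unfold f; ring
  have h2 : rt d (f d c y - c) ^ d = y ^ d := by rw [rt_pow hd, h1]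
  have h3 : rt d (f d c y - c) ≠ 0 := by
    intro h
    rw [h, zero_pow (by omega)] at h2
    exact pow_ne_zero d hyne h2.symm
  have h4 : y / rt d (f d c y - c) ∈ RU d := by
    rw [mem_RU hd, div_pow, h2, div_self (pow_ne_zero d hyne)]
  have h5 : y / rt d (f d c y - c) * rt d (f d c y - c) = y := div_mul_cancel₀ y h3
  have h6 : wt d δ y * φ y ≤ RO d δ c φ (f d c y) := by
    rw [RO_apply]
    have := Finset.single_le_sum
      (f := fun ζ => wt d δ (ζ * rt d (f d c y - c)) * φ (ζ * rt d (f d c y - c)))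
      (fun ζ _ => mul_nonneg (wt_nonneg hδ _) (h0 _)) h4
    simpa only [h5] using this
  have h7 : wt d δ y * ‖deriv (f d c) y‖ ^ 2 = 1 := by
    rw [wt_eq hδ, chi_one hδ hy, one_mul, deriv_f, norm_mul, norm_pow, Complex.norm_natCast,
      mul_pow, ← pow_mul, mul_comm (d - 1) 2]
    have : (d : ℝ) ^ 2 * ‖y‖ ^ (2 * (d - 1)) ≠ 0 := by positivity
    rw [one_div, inv_mul_cancel₀ this]
  calc φ y = (wt d δ y * φ y) * ‖deriv (f d c) y‖ ^ 2 := by
        rw [mul_right_comm, h7, one_mul]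
    _ ≤ _ := mul_le_mul_of_nonneg_right h6 (by positivity)

theorem one_aux {d : ℕ} (hd : 2 ≤ d) {δ : ℝ} (hδ : 0 < δ) (c : ℂ) (n : ℕ) :
    ∀ {φ : ℂ → ℝ}, (∀ y, 0 ≤ φ y) → ∀ {y : ℂ}, y ∈ VV d δ c n →
    φ y ≤ (RO d δ c)^[n] φ ((f d c)^[n] y) * ‖deriv ((f d c)^[n]) y‖ ^ 2 := by
  induction n with
  | zero =>
    intro φ _ y _
    simp
  | succ n ih =>
    intro φ h0 y hy
    obtain ⟨h1, h2⟩ := VV_succ hy
    have h3 := ih (fun y => RO_nonneg hδ h0 y) h2 (φ := RO d δ c φ)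
    have h4 := RO_ge hd hδ c h0 h1
    have h5 : deriv ((f d c)^[n + 1]) y = deriv ((f d c)^[n]) (f d c y) * deriv (f d c) y := by
      have := deriv_iter_add d c n 1 y
      rw [Function.iterate_one] at this
      exact this
    rw [h5, norm_mul, mul_pow, ← mul_assoc]
    calc φ y ≤ RO d δ c φ (f d c y) * ‖deriv (f d c) y‖ ^ 2 := h4
      _ ≤ _ := mul_le_mul_of_nonneg_right h3 (by positivity)

theorem one : S_ONE := by
  intro d δ c n y hd hδ hy
  exact one_aux hd hδ c n (φ := fun _ => 1) (fun _ => zero_le_one) hy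

end Pool.Agent.Y932.CA
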